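import Mathlib
import Pool.Agent.Q64.P.Good
import Pool.Agent.Q64.L.Thms

/-!
# Semisimplicity of Frobenius on etale homology for the products of arbitrary varieties with
abelian varieties: small slope deviations

Let `q = p ^ a`, let `F i` (`i` in a finite set) be CM fields and `π i` a Weil number for `q` in
`F i`, and let `f i` be monic polynomials whose complex roots are conjugates of `π i` (`IsPolyOf`),
for instance the characteristic polynomials of Frobenius of the abelian varieties in the isogeny
class of `π i` over the field with `q` elements. We suppose that

* the functions `n` on the complex embeddings of `F i` with `n (conj φ) = - n φ` are an absolutely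
  irreducible representation of the automorphisms of `ℂ` (`OddAbsolutelyIrreducible`), and there
  are no equivariant maps between those of `F i` and `F i'` for `i ≠ i'` (`Unrelated`). This is the
  generic case; the first condition is true, for example, if the Galois group of the normal closure
  of `F i` consists of all permutations of the embeddings compatible with the complex conjugation,
  or if only some automorphism exchanges one embedding with its complex conjugate and fixes all the
  others;
* no `π i` is supersingular (`HasOtherSlope`).

Let `A` be an abelian variety over the field with `Q = q ^ s` elements which is isogenous to a
product of powers of abelian varieties coming from the field with `q` elements, with characteristic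
polynomials `f i`, and let `X` be **any** variety (separated scheme of finite type) over the field
with `Q` elements such that

* the eigenvalues `ρ` of Frobenius on the `ℓ`-adic homology of `X` and their conjugates are good
  (`GoodRoots`): for each `i`, `ρ` is unrelated to `F i` (`UnrelatedTo`: a function `n` on the
  embeddings of `F i` with `n (conj φ) = - n φ` which is invariant under all automorphisms of `ℂ`
  that fix a power of `ρ` is zero), **or** `d (ρ) < d (π i)`, **or** the weight of `ρ` is even and
  `d (ρ) < d (π i) + d (π i')` for all `i'` (`SmallDeviation`). Here `d (ρ)` is the mean of
  `(log |x| + log |ρ|) ^ 2` over all `p`-adic conjugates `x` of `ρ` (`deviation`), that is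
  `(log q) ^ 2` times the mean square deviation of the slopes of `ρ` from half of its weight, and
  `d (π i) = (log q) ^ 2 / 4` if `π i` is ordinary (second part of the theorem).

**For all `a`, `b` the eigenvalue `1` of Frobenius on `H_a(A × X, b)` is semisimple if and only if
its eigenvalues `1` on the groups `H_(a - 2 l)(X, b - l)`, `0 ≤ l ≤ dim A`, are semisimple.** For
`a = 2 b` this is: `SS_b (A × X)` holds if and only if the `SS_(b - l) (X)`, `0 ≤ l ≤ dim A`, hold.
`X` may be singular, reducible and not proper. This is not formal, although Frobenius is semisimple
on the cohomology of `A`: the semisimplicity for `A × X` involves all eigenvalues `ρ` of `X` for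
which `ρ α` is a power of `Q` for some product `α` of eigenvalues of `A`.

The starting file `AbelianTimesAnyVariety` in this folder is about almost all abelian varieties
over large finite fields of a fixed dimension; here the single abelian varieties with absolutely
irreducible fields are considered, and each degree separately.

What is used of `A` are known theorems (`IsAbelian`): `H(A)` is generated by `H^1`, Frobenius is
diagonalizable on `H^1` (Weil), the theorem of Tate on divisors, and the nilpotence of
homologically trivial correspondences (Kimura). The theories relative to `X` are modelled by
`RelData`, with the formal properties in `IsTheory`: degrees, products with classes on `A`,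
push-forward to `X`, the projection formula, the operation of the correspondences of `A` and of the
Frobenius endomorphism of `X`. The groups of `X` are numbered as follows: the group of bidegree
`(i, j)` of `X` is `H_(-i)(X, -j)`, and the group of bidegree `(i, j)` of `A × X` is
`H_(2 d - i)(A × X, d - j)`, `d = dim A`; so the product with a class of codimension `c` on `A` has
the bidegree `(2 c, c)`. The operator `frobN`, `frobM` is the inverse of the push-forward by the
Frobenius endomorphism of `X`; then the Frobenius endomorphism of `A × X` is the multiplication by
`Q ^ j` on motivic homology (`IsPure`), and also on the Galois invariants of the `ℓ`-adic homology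
groups (`InvN`, `InvM`); the generalized eigenvectors are in `GenN`, `GenM`.

Examples, for `s = 1` and ordinary `π i`. All `ρ` of even weight `2 v` with slopes between
`v - 1 / √2` and `v + 1 / √2` are good, and all `ρ` of any weight `w` with slopes between
`(w - 1) / 2` and `(w + 1) / 2`. In general all `ρ` of weight `2 v` are good whose degree over `ℚ`
is more than `2 ∑ (s - v) ^ 2`, the sum over the slopes `s` of all conjugates; for the second
cohomology of a surface of geometric genus `g` the Newton polygon lies above the Hodge polygon, and
it is sufficient that `ρ` is `q` times a root of unity or has degree more than `4 g` (more than
four for K3 surfaces). The conditions of this kind do not exclude any relation between `A` and the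
other factor: `ℚ(ρ)` may be contained in a field `F i`, or in its Galois closure.

Relation to other results. `AllCMTypesTimesAny` (this folder) is the theorem for the abelian
varieties of almost all slope types of all CM fields, if all eigenvalues of Frobenius on the other
factor are unrelated to the fields. New here are the second and the third alternative, and the
theorem is about each single abelian variety with absolutely irreducible fields. The criterion for
slopes is the one of `SmallSlopeDeviation` (MP_0f183b_ag, helper70), where it is applied to the
Tate conjecture.

The proof. A multiplicative relation between `ρ`, a power of `q` and a product of conjugates of the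
`π i` gives, for each automorphism `σ` of a Galois closure, the linear relation
`s (σ ρ) - w / 2 = ∑ x, n x (s (σ x) - 1 / 2)` between slopes, up to signs, where the sum is over
one embedding `x` of each conjugate pair and `n x` is the difference of the multiplicities of `x`
and of its conjugate. The second moments of the slopes are an invariant form on the odd functions;
it is real valued, but all its compositions with rational functionals are rational invariant forms,
and so the slopes at different pairs are uncorrelated, by Schur's lemma. Hence
`d (ρ) = ∑ x, (n x) ^ 2 d (π x)`. If the weight of `ρ` is even, so is the sum of all
multiplicities, and a single `n x = ± 1` is impossible. So all `n x` are zero (`noRel_good`, by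
helper70). It follows that the correspondence on `A` given by the sum of the products of dual
classes of divisor products acts as the identity on the part of the theory of `A × X` in question:
on the generalized eigenspace of the Frobenius endomorphism of `A × X` for `Q ^ j`, the Frobenius
endomorphism of `A` satisfies a power of the polynomial reciprocal to that of the Frobenius
endomorphism of `X`; this polynomial is prime to the one whose value on `H(A)` lies in the part
generated by divisors, and the difference of the two correspondences is nilpotent. So the theory of
`A × X` is, on this part, the direct sum of copies of the one of `X` (Kunneth formula), compatibly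
with the regulators.
-/

set_option autoImplicit false

namespace Pool.Agent.Results.MP_16ef92_ag.SmallSlopeDeviation

open NumberField Module Polynomial Pool.Agent.Y137.MV Pool.Agent.Y137.SL Pool.Agent.Y1.CT
  Pool.Agent.Q70.SQ Pool.Agent.Q64.P Pool.Agent.Q64.L

/-- **The eigenvalue one of Frobenius on `H_a(A × X, b)` is semisimple if and only if it is on all
the groups `H_(a - 2 l)(X, b - l)`, `0 ≤ l ≤ dim A`, for the abelian varieties `A` over finite
fields with absolutely irreducible, unrelated CM fields and no supersingular part, and all
varieties `X`, singular or open, each of whose Frobenius eigenvalues is unrelated to these fields
or has small mean square slope deviation.** -/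
theorem result :
    (∀ (p : ℕ) [Fact p.Prime] (a : ℕ) (I : Type) [Fintype I] (F : I → Type)
      [∀ i, Field (F i)] [∀ i, NumberField (F i)] [∀ i, IsCMField (F i)] (π : ∀ i, F i)
      (f : I → ℤ[X]), 0 < a →
      (∀ i, π i * IsCMField.complexConj (F i) (π i) = (p : F i) ^ a) →
      (∀ i, OddAbsolutelyIrreducible (F i)) →
      (∀ i i', i ≠ i' → Pool.Agent.Y137.MV.Unrelated (F i) (F i')) →
      (∀ i, HasOtherSlope p a (π i)) → (∀ i, IsPolyOf (π i) (f i)) →
      SemisimpleReduces (GoodRoots p a π) (p ^ a) f) ∧
    (∀ (p : ℕ) [Fact p.Prime] (a : ℕ) (F : Type) [Field F] [NumberField F] (π : F),
      IsOrdinary p a π → weilDeviation p a π = (a * Real.log p) ^ 2 / 4) := by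
  refine ⟨?_, ?_⟩
  · intro p _ a I _ F _ _ _ π f ha hw habs hun hns hf
    exact semisimpleReduces (Nat.one_lt_pow ha.ne' (Fact.out : p.Prime).one_lt)
      (good_small ha hw habs hun hns f hf)
  · intro p _ a F _ _ π h
    exact weilDeviation_ordinary h

end Pool.Agent.Results.MP_16ef92_ag.SmallSlopeDeviation
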